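import Mathlib
import Pool.Agent.H12.Gammoid

set_option autoImplicit false

namespace Pool.Agent.Results.MP_0a0514_co.Hub

open Finset Pool.Agent.H12.Gammoid

/-- The independent sets of the uniform matroid `U_{r,n}` on `{1, ..., n}`. -/
def U (r n : ℕ) : Set (Finset ℕ) := {X | X ⊆ Icc 1 n ∧ #X ≤ r}

def arcs : Finset (ℕ × ℕ) :=
  {(5, 1), (5, 2), (6, 1), (6, 3), (7, 2), (7, 3), (8, 4), (5, 9), (6, 9), (7, 9), (8, 9), (9, 1), (9, 2), (9, 3), (9, 4)}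

def tab : List (List (List ℕ)) :=
  [[[1], [2], [3], [4]],
   [[1], [2], [3], [5, 9, 4]],
   [[1], [2], [3], [6, 9, 4]],
   [[1], [2], [3], [7, 9, 4]],
   [[1], [2], [3], [8, 4]],
   [[1], [2], [4], [5, 9, 3]],
   [[1], [2], [4], [6, 3]],
   [[1], [2], [4], [7, 3]],
   [[1], [2], [4], [8, 9, 3]],
   [[1], [2], [5, 9, 4], [6, 3]],
   [[1], [2], [5, 9, 4], [7, 3]],
   [[1], [2], [5, 9, 3], [8, 4]],
   [[1], [2], [6, 3], [7, 9, 4]],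
   [[1], [2], [6, 3], [8, 4]],
   [[1], [2], [7, 3], [8, 4]],
   [[1], [3], [4], [5, 2]],
   [[1], [3], [4], [6, 9, 2]],
   [[1], [3], [4], [7, 2]],
   [[1], [3], [4], [8, 9, 2]],
   [[1], [3], [5, 2], [6, 9, 4]],
   [[1], [3], [5, 2], [7, 9, 4]],
   [[1], [3], [5, 2], [8, 4]],
   [[1], [3], [6, 9, 4], [7, 2]],
   [[1], [3], [6, 9, 2], [8, 4]],
   [[1], [3], [7, 2], [8, 4]],
   [[1], [4], [5, 2], [6, 3]],
   [[1], [4], [5, 2], [7, 3]],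
   [[1], [4], [5, 2], [8, 9, 3]],
   [[1], [4], [6, 9, 2], [7, 3]],
   [[1], [4], [6, 3], [8, 9, 2]],
   [[1], [4], [7, 2], [8, 9, 3]],
   [[1], [5, 2], [6, 3], [7, 9, 4]],
   [[1], [5, 2], [6, 3], [8, 4]],
   [[1], [5, 2], [7, 3], [8, 4]],
   [[1], [6, 9, 2], [7, 3], [8, 4]],
   [[2], [3], [4], [5, 1]],
   [[2], [3], [4], [6, 1]],
   [[2], [3], [4], [7, 9, 1]],
   [[2], [3], [4], [8, 9, 1]],
   [[2], [3], [5, 1], [6, 9, 4]],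
   [[2], [3], [5, 1], [7, 9, 4]],
   [[2], [3], [5, 1], [8, 4]],
   [[2], [3], [6, 1], [7, 9, 4]],
   [[2], [3], [6, 1], [8, 4]],
   [[2], [3], [7, 9, 1], [8, 4]],
   [[2], [4], [5, 1], [6, 3]],
   [[2], [4], [5, 1], [7, 3]],
   [[2], [4], [5, 1], [8, 9, 3]],
   [[2], [4], [6, 1], [7, 3]],
   [[2], [4], [6, 1], [8, 9, 3]],
   [[2], [4], [7, 3], [8, 9, 1]],
   [[2], [5, 1], [6, 3], [7, 9, 4]],
   [[2], [5, 1], [6, 3], [8, 4]],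
   [[2], [5, 1], [7, 3], [8, 4]],
   [[2], [6, 1], [7, 3], [8, 4]],
   [[3], [4], [5, 1], [6, 9, 2]],
   [[3], [4], [5, 1], [7, 2]],
   [[3], [4], [5, 1], [8, 9, 2]],
   [[3], [4], [6, 1], [7, 2]],
   [[3], [4], [6, 1], [8, 9, 2]],
   [[3], [4], [7, 2], [8, 9, 1]],
   [[3], [5, 1], [6, 9, 4], [7, 2]],
   [[3], [5, 1], [6, 9, 2], [8, 4]],
   [[3], [5, 1], [7, 2], [8, 4]],
   [[3], [6, 1], [7, 2], [8, 4]],
   [[4], [5, 1], [6, 9, 2], [7, 3]],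
   [[4], [5, 1], [6, 3], [8, 9, 2]],
   [[4], [5, 1], [7, 2], [8, 9, 3]],
   [[4], [6, 1], [7, 2], [8, 9, 3]],
   [[5, 1], [6, 9, 2], [7, 3], [8, 4]]]

theorem tab_ok : ∀ R ∈ tab, (∀ p ∈ R, (p ≠ [] ∧ p.Nodup ∧ p.IsChain fun a b => (a, b) ∈ arcs) ∧
    ∃ t ∈ Icc 1 4, p.getLast? = some t) ∧ ∀ p ∈ R, ∀ q ∈ R, p ≠ q → ∀ a ∈ p, a ∉ q := by
  decide +kernel

theorem tab_all : ∀ X ∈ (Icc 1 8).powerset, #X ≤ 4 →
    ∃ R ∈ tab, ∀ x ∈ X, ∃ p ∈ R, p.head? = some x := by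
  decide +kernel

theorem std : Std arcs (Icc 1 4) (Icc 1 8) (U 4 8) := by
  refine ⟨Set.ext fun X => ⟨fun h => ⟨h.1, by simpa using h.2.card_le⟩, fun h => ⟨h.1, ?_⟩⟩,
    by decide, by decide, by decide⟩
  obtain ⟨R, h1, h2⟩ := tab_all X (mem_powerset.2 h.1) h.2
  obtain ⟨h3, h4⟩ := tab_ok R h1
  exact ⟨{p | p ∈ R}, h3, fun p hp q hq e a ha => h4 p hp q hq e a ha, h2⟩

theorem result : ¬ ∀ r n : ℕ, r ≤ n → arcC (Icc 1 n) (U r n) = r * (n - r) := by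
  intro h
  have h1 := h 4 8 (by decide)
  have h2 : 15 ∈ {m | ∃ A T, Std A T (Icc 1 8) (U 4 8) ∧ #A = m} := ⟨arcs, _, std, by decide⟩
  have h3 : arcC (Icc 1 8) (U 4 8) ≤ 15 := Nat.sInf_le h2
  omega

end Pool.Agent.Results.MP_0a0514_co.Hub
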